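import Mathlib

set_option autoImplicit false

namespace Pool.Agent.W248.RG

open MvPolynomial

/-- the degree (value in the semigroup) of an exponent -/
def deg {k : ℕ} (a : Fin k → ℕ) (v : Fin k →₀ ℕ) : ℕ := ∑ i, v i * a i

/-- the toric ideal -/
noncomputable def tor {k : ℕ} (a : Fin k → ℕ) : Ideal (MvPolynomial (Fin k) ℚ) :=
  RingHom.ker (MvPolynomial.aeval
    (fun i : Fin k => (Polynomial.X : Polynomial ℚ) ^ (a i)))

/-- the residue of an exponent -/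
def res {e : ℕ} (m : ℕ) (r : Fin e → ZMod m) (w : Fin e → ℕ) : ZMod m :=
  ∑ i : Fin e, (w i : ZMod m) * r i

/-- the unit vector -/
def ei {e : ℕ} (i : Fin e) : Fin e → ℕ := Pi.single i 1

/-- a finite down-set which is a transversal modulo `m`, with its set of corners -/
structure Stair {e : ℕ} (m : ℕ) (r : Fin e → ZMod m) (B C : Finset (Fin e → ℕ)) : Prop where
  down : ∀ u ∈ B, ∀ v, v ≤ u → v ∈ B
  inj : ∀ u ∈ B, ∀ v ∈ B, res m r u = res m r v → u = v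
  surj : ∀ v, ∃ u ∈ B, res m r u = res m r v
  corner : ∀ u, u ∈ C ↔ (u ∉ B ∧ ∀ i, 0 < u i → u - ei i ∈ B)

/-- COMB: the number of corners. -/
def S_COMB : Prop := ∀ (e m h : ℕ) (r : Fin e → ZMod m) (B C : Finset (Fin e → ℕ)),
  2 ≤ e → 0 < m → 0 < h → Stair m r B C →
    C.card * h ≤ h + 2 ^ e * m + h * (e * (h + 1) ^ (e - 2))

/-- FAM: the family of semigroups with many relations (`n = e - 2`). -/
def S_FAM : Prop := ∀ (n r m : ℕ), 1 ≤ n → 2 ≤ r → 2 * r ^ (n + 1) ≤ m →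
  ∃ g : Fin (n + 3) → ℕ, StrictMono g ∧ g 0 = m ∧ Finset.univ.gcd g = 1 ∧
    (∀ i : Fin (n + 3), g i ∉ AddSubmonoid.closure (g '' {j : Fin (n + 3) | j ≠ i})) ∧
    ∃ E : Finset (Fin (n + 3) →₀ ℕ), (r / n + 1) ^ n ≤ E.card ∧
      (∀ u ∈ E, ∀ i, 0 < u i → ∀ v, deg g v = deg g (u - Finsupp.single i 1) →
        v = u - Finsupp.single i 1) ∧
      (∀ u ∈ E, ∃ v, v ∉ E ∧ deg g v = deg g u)

/-- LOW: many corners with unique proper divisors force many generators. -/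
def S_LOW : Prop := ∀ (k : ℕ) (a : Fin k → ℕ) (E : Finset (Fin k →₀ ℕ)),
  (∀ u ∈ E, ∀ i, 0 < u i → ∀ v, deg a v = deg a (u - Finsupp.single i 1) →
      v = u - Finsupp.single i 1) →
  (∀ u ∈ E, ∃ v, v ∉ E ∧ deg a v = deg a u) →
  ∀ s : Finset (MvPolynomial (Fin k) ℚ),
    Ideal.span (s : Set (MvPolynomial (Fin k) ℚ)) = tor a → E.card ≤ s.card

/-- UP: the toric ideal is generated by at most as many elements as there are corners. -/
def S_UP : Prop := ∀ (e m : ℕ), 0 < m → ∀ a : Fin (e + 1) → ℕ, a 0 = m → (∀ i, 0 < a i) →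
  ∃ B C : Finset (Fin e → ℕ), Stair m (fun i => (a i.succ : ZMod m)) B C ∧
    ∃ s : Finset (MvPolynomial (Fin (e + 1)) ℚ), s.card ≤ C.card ∧
      Ideal.span (s : Set (MvPolynomial (Fin (e + 1)) ℚ)) = tor a

end Pool.Agent.W248.RG
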