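import Mathlib
import Pool.Agent.W248.RG.Stm

set_option autoImplicit false

namespace Pool.Agent.W248.RG

lemma res_add' {e : ℕ} (m : ℕ) (r : Fin e → ZMod m) (v w : Fin e → ℕ) :
    res m r (v + w) = res m r v + res m r w := by
  unfold res
  rw [← Finset.sum_add_distrib]
  refine Finset.sum_congr rfl fun i _ => ?_
  rw [Pi.add_apply, Nat.cast_add, add_mul]

lemma sub_ei_add {e : ℕ} (u : Fin e → ℕ) (i : Fin e) (hi : 0 < u i) : u - ei i + ei i = u := by
  funext j
  simp only [Pi.add_apply, Pi.sub_apply, ei, Pi.single_apply]
  split_ifs with hj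
  · subst hj; omega
  · omega

theorem comb : S_COMB := by
  intro e m h r B C he hm hh hst
  classical
  have hne : NeZero m := ⟨hm.ne'⟩
  have anti : ∀ u ∈ C, ∀ v ∈ C, u ≤ v → u = v := by
    intro u hu v hv huv
    by_contra hne
    obtain ⟨i, hi⟩ : ∃ i, u i < v i := by
      by_contra hcon
      push Not at hcon
      exact hne (le_antisymm huv hcon)
    have h1 := ((hst.corner v).mp hv).2 i (by omega)
    have h2 : u ≤ v - ei i := by
      intro j
      have := huv j
      simp only [Pi.sub_apply, ei, Pi.single_apply]
      split_ifs with hj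
      · subst hj; omega
      · omega
    exact ((hst.corner u).mp hu).1 (hst.down _ h1 _ h2)
  have hBm : B.card ≤ m := by
    calc B.card ≤ (Finset.univ : Finset (ZMod m)).card :=
          Finset.card_le_card_of_injOn (res m r) (fun _ _ => Finset.mem_univ _)
            (fun u hu v hv huv => hst.inj u hu v hv huv)
      _ = m := by rw [Finset.card_univ, ZMod.card]
  -- full support
  have hrep : ∀ u ∈ C, (∀ i, 0 < u i) → res m r u = res m r 0 := by
    intro u hu hpos
    obtain ⟨b, hb, hbu⟩ := hst.surj u
    have hb0 : b = 0 := by
      by_contra hb0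
      obtain ⟨i, hi⟩ : ∃ i, 0 < b i := by
        by_contra hcon
        push Not at hcon
        exact hb0 (funext fun i => by simpa using hcon i)
      have h1 := ((hst.corner u).mp hu).2 i (hpos i)
      have h2 : b - ei i ∈ B := hst.down _ hb _ (fun j => by simp)
      have h3 : res m r (u - ei i) = res m r (b - ei i) := by
        have e1 := res_add' m r (u - ei i) (ei i)
        have e2 := res_add' m r (b - ei i) (ei i)
        rw [sub_ei_add u i (hpos i)] at e1
        rw [sub_ei_add b i hi] at e2
        rw [e1, e2] at hbu
        exact (add_right_cancel hbu).symm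
      have h4 := hst.inj _ h1 _ h2 h3
      have h5 : u = b := by
        rw [← sub_ei_add u i (hpos i), ← sub_ei_add b i hi, h4]
      exact ((hst.corner u).mp hu).1 (h5 ▸ hb)
    rw [← hbu, hb0]
  set C1 := C.filter (fun u => ∀ i, 0 < u i) with hC1
  have hc1 : C1.card ≤ 1 := by
    rw [Finset.card_le_one]
    intro u hu v hv
    rw [hC1, Finset.mem_filter] at hu hv
    set w : Fin e → ℕ := fun i => min (u i) (v i) with hw
    have hsub : ∀ x ∈ C, (∀ i, 0 < x i) → w ≤ x → x - w ∈ B := by
      intro x hx hpos hwx
      have h1 := ((hst.corner x).mp hx).2 ⟨0, by omega⟩ (hpos _)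
      refine hst.down _ h1 _ ?_
      intro j
      simp only [Pi.sub_apply, ei, Pi.single_apply]
      have hwj : 0 < w j := by
        simp only [hw]
        exact lt_min (hu.2 j) (hv.2 j)
      split_ifs <;> omega
    have hwu : w ≤ u := fun i => min_le_left _ _
    have hwv : w ≤ v := fun i => min_le_right _ _
    have h1 := hsub u hu.1 hu.2 hwu
    have h2 := hsub v hv.1 hv.2 hwv
    have hu' : u - w + w = u := tsub_add_cancel_of_le hwu
    have hv' : v - w + w = v := tsub_add_cancel_of_le hwv
    have h3 : res m r (u - w) = res m r (v - w) := by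
      have e1 := res_add' m r (u - w) w
      have e2 := res_add' m r (v - w) w
      rw [hu'] at e1
      rw [hv'] at e2
      have e3 : res m r u = res m r v := (hrep u hu.1 hu.2).trans (hrep v hv.1 hv.2).symm
      rw [e1, e2] at e3
      exact add_right_cancel e3
    have h4 := hst.inj _ h1 _ h2 h3
    rw [← hu', ← hv', h4]
  -- small with a zero
  set C3 : Fin e → Finset (Fin e → ℕ) := fun i => C.filter (fun u => (∀ k, u k ≤ h) ∧ u i = 0)
    with hC3
  have hc3 : ∀ i, (C3 i).card ≤ (h + 1) ^ (e - 2) := by
    intro i
    obtain ⟨j, hj⟩ : ∃ j : Fin e, j ≠ i := by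
      have : Nontrivial (Fin e) := Fin.nontrivial_iff_two_le.mpr he
      exact exists_ne i
    have hcard : (Fintype.piFinset (fun k : Fin e => if k = i ∨ k = j then ({0} : Finset ℕ) else
        Finset.range (h + 1))).card = (h + 1) ^ (e - 2) := by
      rw [Fintype.card_piFinset]
      have e1 : ∀ k : Fin e, (if k = i ∨ k = j then ({0} : Finset ℕ) else
          Finset.range (h + 1)).card = if k ∈ ({i, j} : Finset (Fin e)) then 1 else (h + 1) := by
        intro k
        by_cases hk : k = i ∨ k = j
        · rw [if_pos hk, if_pos (by simpa using hk), Finset.card_singleton]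
        · rw [if_neg hk, if_neg (by simpa using hk), Finset.card_range]
      rw [Finset.prod_congr rfl fun k _ => e1 k, Finset.prod_ite]
      simp only [Finset.prod_const_one, one_mul, Finset.prod_const]
      congr 1
      have e2 : (Finset.univ.filter fun k : Fin e => k ∉ ({i, j} : Finset (Fin e))) =
          ({i, j} : Finset (Fin e))ᶜ := by
        ext k; simp
      rw [e2, Finset.card_compl, Finset.card_pair (Ne.symm hj), Fintype.card_fin]
    rw [← hcard]
    refine Finset.card_le_card_of_injOn (fun u => Function.update u j 0) ?_ ?_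
    · intro u hu
      rw [Finset.mem_coe, hC3, Finset.mem_filter] at hu
      rw [Finset.mem_coe, Fintype.mem_piFinset]
      intro k
      by_cases hk : k = j
      · subst hk
        simp
      · simp only [Function.update_of_ne hk]
        by_cases hki : k = i
        · subst hki
          simp [hu.2.2]
        · rw [if_neg (by tauto), Finset.mem_range]
          have := hu.2.1 k
          omega
    · intro u hu v hv huv
      rw [Finset.mem_coe, hC3, Finset.mem_filter] at hu hv
      have hk : ∀ k, k ≠ j → u k = v k := by
        intro k hk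
        have := congrFun huv k
        simp only [Function.update_of_ne hk] at this
        exact this
      rcases le_total (u j) (v j) with hle | hle
      · refine anti u hu.1 v hv.1 fun k => ?_
        by_cases h1 : k = j
        · rw [h1]; exact hle
        · exact (hk k h1).le
      · refine (anti v hv.1 u hu.1 fun k => ?_).symm
        by_cases h1 : k = j
        · rw [h1]; exact hle
        · exact (hk k h1).ge
  -- some big coordinate
  set C2 : Finset (Fin e) → Finset (Fin e → ℕ) := fun T => C.filter
    (fun u => (Finset.univ.filter fun k => u k ≤ h) = T) with hC2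
  have hc2 : ∀ T : Finset (Fin e), T ≠ Finset.univ → (C2 T).card * h ≤ m := by
    intro T hT
    obtain ⟨i0, hi0⟩ : ∃ i0, i0 ∉ T := by
      by_contra hcon
      push Not at hcon
      exact hT (Finset.eq_univ_iff_forall.mpr hcon)
    have hmem : ∀ u ∈ C2 T, u ∈ C ∧ ∀ k, k ∉ T → h < u k := by
      intro u hu
      rw [hC2, Finset.mem_filter] at hu
      refine ⟨hu.1, fun k hk => ?_⟩
      rw [← hu.2, Finset.mem_filter] at hk
      by_contra hcon
      exact hk ⟨Finset.mem_univ _, by omega⟩
    have h1 : (C2 T).card * h = ((C2 T) ×ˢ (Finset.Icc 1 h)).card := by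
      rw [Finset.card_product, Nat.card_Icc]
      simp
    rw [h1]
    refine le_trans (Finset.card_le_card_of_injOn
      (fun p : (Fin e → ℕ) × ℕ => fun k => if k ∈ T then p.1 k else p.1 k - p.2) ?_ ?_) hBm
    · rintro ⟨u, t⟩ hp
      rw [Finset.mem_coe, Finset.mem_product, Finset.mem_Icc] at hp
      obtain ⟨hu, ht1, ht2⟩ := hp
      simp only at hu ht1 ht2
      obtain ⟨huC, hbig⟩ := hmem u hu
      have hb := ((hst.corner u).mp huC).2 i0 (by have := hbig i0 hi0; omega)
      rw [Finset.mem_coe]
      refine hst.down _ hb _ ?_
      intro k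
      simp only [Pi.sub_apply, ei, Pi.single_apply]
      by_cases hk : k ∈ T
      · have : k ≠ i0 := by rintro rfl; exact hi0 hk
        rw [if_pos hk, if_neg this]
        omega
      · rw [if_neg hk]
        split_ifs <;> omega
    · rintro ⟨u, t⟩ hp ⟨v, t'⟩ hp' heq
      rw [Finset.mem_coe, Finset.mem_product, Finset.mem_Icc] at hp hp'
      obtain ⟨hu, ht1, ht2⟩ := hp
      obtain ⟨hv, ht1', ht2'⟩ := hp'
      simp only at hu ht1 ht2 hv ht1' ht2'
      obtain ⟨huC, hbig⟩ := hmem u hu
      obtain ⟨hvC, hbig'⟩ := hmem v hv
      have hT1 : ∀ k, k ∈ T → u k = v k := by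
        intro k hk
        have := congrFun heq k
        simp only [if_pos hk] at this
        exact this
      have hT2 : ∀ k, k ∉ T → u k + t' = v k + t := by
        intro k hk
        have := congrFun heq k
        simp only [if_neg hk] at this
        have h1 := hbig k hk
        have h2 := hbig' k hk
        omega
      have huv : u = v := by
        rcases le_total t t' with hle | hle
        · refine anti u huC v hvC fun k => ?_
          by_cases hk : k ∈ T
          · exact (hT1 k hk).le
          · have h9 := hT2 k hk
            show u k ≤ v k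
            omega
        · refine (anti v hvC u huC fun k => ?_).symm
          by_cases hk : k ∈ T
          · exact (hT1 k hk).ge
          · have h9 := hT2 k hk
            show v k ≤ u k
            omega
      subst huv
      have := hT2 i0 hi0
      have : t = t' := by omega
      rw [this]
  -- cover
  have hcover : C ⊆ C1 ∪ (Finset.univ.biUnion C3) ∪
      ((Finset.univ.erase (Finset.univ : Finset (Fin e))).biUnion C2) := by
    intro u hu
    rw [Finset.mem_union, Finset.mem_union]
    by_cases hT : (Finset.univ.filter fun k => u k ≤ h) = Finset.univ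
    · left
      have hall : ∀ k, u k ≤ h := by
        intro k
        have := Finset.eq_univ_iff_forall.mp hT k
        exact (Finset.mem_filter.mp this).2
      by_cases hz : ∀ i, 0 < u i
      · left
        exact Finset.mem_filter.mpr ⟨hu, hz⟩
      · right
        push Not at hz
        obtain ⟨i, hi⟩ := hz
        rw [Finset.mem_biUnion]
        exact ⟨i, Finset.mem_univ _, Finset.mem_filter.mpr ⟨hu, hall, by omega⟩⟩
    · right
      rw [Finset.mem_biUnion]
      exact ⟨_, Finset.mem_erase.mpr ⟨hT, Finset.mem_univ _⟩, Finset.mem_filter.mpr ⟨hu, rfl⟩⟩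
  have h1 : C.card ≤ 1 + e * (h + 1) ^ (e - 2) +
      ∑ T ∈ Finset.univ.erase (Finset.univ : Finset (Fin e)), (C2 T).card := by
    refine (Finset.card_le_card hcover).trans ?_
    refine (Finset.card_union_le _ _).trans ?_
    refine Nat.add_le_add ((Finset.card_union_le _ _).trans (Nat.add_le_add hc1 ?_))
      Finset.card_biUnion_le
    refine Finset.card_biUnion_le.trans ?_
    refine (Finset.sum_le_card_nsmul _ _ _ fun i _ => hc3 i).trans ?_
    simp
  have h2 : (∑ T ∈ Finset.univ.erase (Finset.univ : Finset (Fin e)), (C2 T).card) * h ≤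
      2 ^ e * m := by
    rw [Finset.sum_mul]
    refine (Finset.sum_le_card_nsmul _ _ m fun T hT => hc2 T (Finset.ne_of_mem_erase hT)).trans ?_
    rw [smul_eq_mul]
    refine Nat.mul_le_mul_right m ?_
    refine (Finset.card_erase_le).trans ?_
    simp
  calc C.card * h ≤ (1 + e * (h + 1) ^ (e - 2) +
      ∑ T ∈ Finset.univ.erase (Finset.univ : Finset (Fin e)), (C2 T).card) * h :=
        Nat.mul_le_mul_right h h1
    _ = h + h * (e * (h + 1) ^ (e - 2)) +
      (∑ T ∈ Finset.univ.erase (Finset.univ : Finset (Fin e)), (C2 T).card) * h := by ring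
    _ ≤ h + h * (e * (h + 1) ^ (e - 2)) + 2 ^ e * m := Nat.add_le_add_left h2 _
    _ = _ := by ring

end Pool.Agent.W248.RG
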