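import Mathlib
import Pool.Agent.W248.RG.Glue1

set_option autoImplicit false

namespace Pool.Agent.W248.RG

open MvPolynomial

variable {e : ℕ}

/-- embedding of exponents -/
noncomputable def emb (j : ℕ) (w : Fin e → ℕ) : Fin (e + 1) →₀ ℕ :=
  Finsupp.equivFunOnFinite.symm (Fin.cons j w : Fin (e + 1) → ℕ)

lemma emb_zero (j : ℕ) (w : Fin e → ℕ) : emb j w 0 = j := rfl

lemma emb_succ (j : ℕ) (w : Fin e → ℕ) (i : Fin e) : emb j w i.succ = w i := rfl

lemma emb_add (j k : ℕ) (w v : Fin e → ℕ) : emb (j + k) (w + v) = emb j w + emb k v := by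
  ext i
  refine Fin.cases ?_ (fun i => ?_) i
  · rfl
  · rfl

lemma eq_emb (v : Fin (e + 1) →₀ ℕ) : v = emb (v 0) (fun i => v i.succ) := by
  ext i
  refine Fin.cases ?_ (fun i => ?_) i
  · rfl
  · rfl

/-- the weight of an exponent in three variables -/
def wt (a : Fin (e + 1) → ℕ) (w : Fin e → ℕ) : ℕ := ∑ i : Fin e, w i * a i.succ

lemma wt_add (a : Fin (e + 1) → ℕ) (v w : Fin e → ℕ) : wt a (v + w) = wt a v + wt a w := by
  unfold wt
  rw [← Finset.sum_add_distrib]
  refine Finset.sum_congr rfl fun i _ => ?_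
  rw [Pi.add_apply, add_mul]

lemma deg_emb (a : Fin (e + 1) → ℕ) (j : ℕ) (w : Fin e → ℕ) : deg a (emb j w) = j * a 0 + wt a w := by
  unfold deg wt
  rw [Fin.sum_univ_succ]
  rfl

/-- the term order -/
def R (a : Fin (e + 1) → ℕ) (w v : Fin e → ℕ) : Prop :=
  wt a w < wt a v ∨ wt a w = wt a v ∧ toLex w < toLex v

lemma R_wf (a : Fin (e + 1) → ℕ) : WellFounded (R a) := by
  have h : WellFounded (fun x y : ℕ ×ₗ Lex (Fin e → ℕ) => x < y) := wellFounded_lt
  have h2 := InvImage.wf (fun w : Fin e → ℕ => (toLex (wt a w, toLex w) : ℕ ×ₗ Lex (Fin e → ℕ))) h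
  refine Subrelation.wf ?_ h2
  intro w v hwv
  show toLex (wt a w, toLex w) < toLex (wt a v, toLex v)
  rw [Prod.Lex.toLex_lt_toLex]
  exact hwv

lemma R_add (a : Fin (e + 1) → ℕ) {w v : Fin e → ℕ} (t : Fin e → ℕ) (h : R a w v) :
    R a (w + t) (v + t) := by
  unfold R at *
  rw [wt_add, wt_add]
  rcases h with h | ⟨h, h'⟩
  · left; omega
  · right
    refine ⟨by omega, ?_⟩
    have : toLex w + toLex t < toLex v + toLex t := add_lt_add_left h' _
    exact this

lemma R_trich (a : Fin (e + 1) → ℕ) (w v : Fin e → ℕ) (h1 : ¬ R a w v) (h2 : ¬ R a v w) :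
    w = v := by
  unfold R at h1 h2
  have h3 : wt a w = wt a v := by omega
  rcases lt_trichotomy (toLex w) (toLex v) with h | h | h
  · exact absurd (Or.inr ⟨h3, h⟩) h1
  · exact toLex.injective h
  · exact absurd (Or.inr ⟨h3.symm, h⟩) h2

lemma res_add (m : ℕ) (r : Fin e → ZMod m) (v w : Fin e → ℕ) :
    res m r (v + w) = res m r v + res m r w := by
  unfold res
  rw [← Finset.sum_add_distrib]
  refine Finset.sum_congr rfl fun i _ => ?_
  rw [Pi.add_apply, Nat.cast_add, add_mul]

lemma res_wt (a : Fin (e + 1) → ℕ) (m : ℕ) (w : Fin e → ℕ) :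
    res m (fun i => (a i.succ : ZMod m)) w = (wt a w : ZMod m) := by
  unfold res wt
  push_cast
  rfl

lemma exists_corner_le {m : ℕ} {r : Fin e → ZMod m} {B C : Finset (Fin e → ℕ)}
    (h : Stair m r B C) (w : Fin e → ℕ) (hw : w ∉ B) : ∃ u ∈ C, ∃ t, w = u + t := by
  induction hn : (∑ i, w i) using Nat.strong_induction_on generalizing w with
  | _ n ih =>
    by_cases hc : ∀ i, 0 < w i → w - ei i ∈ B
    · exact ⟨w, (h.corner w).mpr ⟨hw, hc⟩, 0, by simp⟩
    · push Not at hc
      obtain ⟨i, hi, hB⟩ := hc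
      have hwi : w = (w - ei i) + ei i := by
        funext j
        simp only [Pi.add_apply, Pi.sub_apply, ei, Pi.single_apply]
        split_ifs with hj
        · subst hj; omega
        · omega
      have hlt : ∑ j, (w - ei i) j < n := by
        rw [← hn]
        conv_rhs => rw [hwi]
        simp only [Pi.add_apply, Finset.sum_add_distrib]
        have : ∑ j, ei i j = 1 := by
          unfold ei
          rw [Finset.sum_pi_single']
          simp
        omega
      obtain ⟨u, hu, t, ht⟩ := ih _ hlt (w - ei i) hB rfl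
      refine ⟨u, hu, t + ei i, ?_⟩
      rw [← add_assoc, ← ht]
      exact hwi

/-- upper glue -/
theorem upper (e m : ℕ) (hm : 0 < m) (a : Fin (e + 1) → ℕ) (ha0 : a 0 = m) (_ : ∀ i, 0 < a i) :
    ∃ B C : Finset (Fin e → ℕ), Stair m (fun i => (a i.succ : ZMod m)) B C ∧
      ∃ s : Finset (MvPolynomial (Fin (e + 1)) ℚ), s.card ≤ C.card ∧ Ideal.span (s : Set _) = tor a := by
  classical
  have : NeZero m := ⟨hm.ne'⟩
  set r : Fin e → ZMod m := fun i => (a i.succ : ZMod m) with hr
  set f := res m r with hf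
  let B0 : Set (Fin e → ℕ) := {u | ∀ v, f v = f u → ¬ R a v u}
  have inj0 : ∀ u ∈ B0, ∀ v ∈ B0, f u = f v → u = v := by
    intro u hu v hv huv
    exact R_trich a u v (hv u huv) (hu v huv.symm)
  have hfin : B0.Finite := by
    refine Set.Finite.of_finite_image (f := f) (Set.toFinite _) ?_
    intro u hu v hv huv
    exact inj0 u hu v hv huv
  let B := hfin.toFinset
  have hB : ∀ u, u ∈ B ↔ ∀ v, f v = f u → ¬ R a v u := by
    intro u; rw [Set.Finite.mem_toFinset]; rfl
  have hsurj : ∀ v, ∃ u ∈ B, f u = f v := by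
    intro v
    let S : Set (Fin e → ℕ) := {w | f w = f v}
    have hS : S.Nonempty := ⟨v, rfl⟩
    refine ⟨(R_wf a).min S hS, ?_, (R_wf a).min_mem S hS⟩
    rw [hB]
    intro w hw
    refine (R_wf a).not_lt_min S ?_
    show f w = f v
    rw [hw]
    exact (R_wf a).min_mem S hS
  have hdown : ∀ u ∈ B, ∀ v, v ≤ u → v ∈ B := by
    intro u hu v hvu
    rw [hB] at hu ⊢
    intro w hw hR
    have hut : u = v + (u - v) := by
      funext i
      have hvi : v i ≤ u i := hvu i
      simp only [Pi.add_apply, Pi.sub_apply]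
      omega
    have h1 := R_add a (u - v) hR
    rw [← hut] at h1
    refine hu _ ?_ h1
    rw [hf, res_add, ← hf, hw, hf, ← res_add, ← hut]
  -- corners
  let C : Finset (Fin e → ℕ) :=
    (((B ×ˢ (Finset.univ : Finset (Fin e))).image (fun p => p.1 + ei p.2)).filter
      (fun u => u ∉ B ∧ ∀ i, 0 < u i → u - ei i ∈ B))
  have h0B : (0 : Fin e → ℕ) ∈ B := by
    obtain ⟨u, hu, _⟩ := hsurj 0
    exact hdown u hu 0 (fun i => Nat.zero_le _)
  have hC : ∀ u, u ∈ C ↔ (u ∉ B ∧ ∀ i, 0 < u i → u - ei i ∈ B) := by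
    intro u
    rw [Finset.mem_filter]
    refine ⟨fun h => h.2, fun h => ⟨?_, h⟩⟩
    have hu0 : ∃ i, 0 < u i := by
      by_contra hcon
      push Not at hcon
      apply h.1
      have : u = 0 := by
        funext i
        have := hcon i
        simpa using this
      rw [this]; exact h0B
    obtain ⟨i, hi⟩ := hu0
    rw [Finset.mem_image]
    refine ⟨(u - ei i, i), ?_, ?_⟩
    · rw [Finset.mem_product]
      exact ⟨h.2 i hi, Finset.mem_univ _⟩
    · funext j
      simp only [Pi.add_apply, Pi.sub_apply, ei, Pi.single_apply]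
      split_ifs with hj
      · subst hj; omega
      · omega
  have hstair : Stair m r B C := ⟨hdown, fun u hu v hv huv => inj0 u ((hB u).mp hu) v
    ((hB v).mp hv) huv, hsurj, hC⟩
  refine ⟨B, C, hstair, ?_⟩
  -- normal forms
  choose nf hnfB hnff using hsurj
  have hwtle : ∀ w, ∀ s ∈ B, f s = f w → wt a s ≤ wt a w := by
    intro w s hs hsw
    have := (hB s).mp hs w hsw.symm
    unfold R at this
    omega
  have hmod : ∀ w v, f w = f v → wt a w ≡ wt a v [MOD m] := by
    intro w v h
    rw [hf, hr, res_wt, res_wt] at h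
    exact (ZMod.natCast_eq_natCast_iff _ _ _).mp h
  have hdiv : ∀ w, ∀ s ∈ B, f s = f w → m ∣ wt a w - wt a s := by
    intro w s hs hsw
    exact (Nat.modEq_iff_dvd' (hwtle w s hs hsw)).mp (hmod s w hsw)
  let gen : (Fin e → ℕ) → MvPolynomial (Fin (e + 1)) ℚ := fun u =>
    monomial (emb 0 u) (1 : ℚ) - monomial (emb ((wt a u - wt a (nf u)) / m) (nf u)) 1
  refine ⟨C.image gen, Finset.card_image_le, ?_⟩
  apply le_antisymm
  · rw [Ideal.span_le]
    intro g hg
    rw [Finset.coe_image] at hg
    obtain ⟨u, hu, rfl⟩ := hg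
    refine mem_tor_binom a _ _ ?_
    rw [deg_emb, deg_emb, ha0]
    have h1 := hdiv u (nf u) (hnfB u) (hnff u)
    have h2 := hwtle u (nf u) (hnfB u) (hnff u)
    rw [Nat.div_mul_cancel h1]
    omega
  · set J : Ideal (MvPolynomial (Fin (e + 1)) ℚ) :=
      Ideal.span ((C.image gen : Finset (MvPolynomial (Fin (e + 1)) ℚ)) : Set _) with hJ
    have hgen : ∀ u ∈ C, gen u ∈ J := by
      intro u hu
      refine Ideal.subset_span ?_
      rw [Finset.coe_image]
      exact ⟨u, hu, rfl⟩
    have hred : ∀ w, ∀ s ∈ B, f s = f w → ∀ j, monomial (emb j w) (1 : ℚ) -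
        monomial (emb (j + (wt a w - wt a s) / m) s) 1 ∈ J := by
      intro w
      induction w using (R_wf a).induction with
      | _ w ih =>
        intro s hs hsw j
        by_cases hwB : w ∈ B
        · have : s = w := inj0 s ((hB s).mp hs) w ((hB w).mp hwB) hsw
          subst this
          simp
        · obtain ⟨u, huC, t, rfl⟩ := exists_corner_le hstair w hwB
          have huB : u ∉ B := ((hC u).mp huC).1
          have hR : R a (nf u) u := by
            by_contra hcon
            have h1 : ¬ R a u (nf u) := (hB _).mp (hnfB u) u (hnff u).symm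
            have := R_trich a _ _ hcon h1
            apply huB
            rw [← this]
            exact hnfB u
          have hR2 : R a (nf u + t) (u + t) := R_add a t hR
          have hfw : f (nf u + t) = f (u + t) := by
            rw [hf, res_add, res_add, ← hf, hnff u]
          set k := (wt a u - wt a (nf u)) / m with hk
          have hkm : k * m = wt a u - wt a (nf u) :=
            Nat.div_mul_cancel (hdiv u (nf u) (hnfB u) (hnff u))
          have hle := hwtle u (nf u) (hnfB u) (hnff u)
          have h1 := ih (nf u + t) hR2 s hs (hsw.trans hfw.symm) (j + k)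
          have h2 : monomial (emb j (u + t)) (1 : ℚ) - monomial (emb (j + k) (nf u + t)) 1 ∈ J := by
            have : monomial (emb j (u + t)) (1 : ℚ) - monomial (emb (j + k) (nf u + t)) 1 =
                monomial (emb j t) 1 * gen u := by
              simp only [gen]
              rw [mul_sub, monomial_mul, monomial_mul, one_mul, ← emb_add, ← emb_add, add_zero,
                add_comm t u, add_comm t (nf u)]
            rw [this]
            exact Ideal.mul_mem_left _ _ (hgen u huC)
          have h3 : j + k + (wt a (nf u + t) - wt a s) / m = j + (wt a (u + t) - wt a s) / m := by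
            have hle2 := hwtle (nf u + t) s hs (hsw.trans hfw.symm)
            have h4 : wt a (u + t) - wt a s = (wt a (nf u + t) - wt a s) + m * k := by
              rw [wt_add, wt_add] at *
              rw [mul_comm m k, hkm]
              omega
            rw [h4, Nat.add_mul_div_left _ _ hm]
            omega
          rw [h3] at h1
          have := Ideal.add_mem _ h2 h1
          simpa using this
    refine tor_le a J ?_
    intro v w hvw
    rw [eq_emb v, eq_emb w, deg_emb, deg_emb, ha0] at hvw
    set v' : Fin e → ℕ := fun i => v i.succ with hv'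
    set w' : Fin e → ℕ := fun i => w i.succ with hw'
    have hfvw : f v' = f w' := by
      rw [hf, hr, res_wt, res_wt, ZMod.natCast_eq_natCast_iff]
      have h1 : (v 0 * m + wt a v') % m = (w 0 * m + wt a w') % m := by rw [hvw]
      rw [Nat.mul_add_mod_self_right, Nat.mul_add_mod_self_right] at h1
      exact h1
    have h1 := hred v' (nf v') (hnfB v') (hnff v') (v 0)
    have h2 := hred w' (nf v') (hnfB v') ((hnff v').trans hfvw) (w 0)
    have e1 := hdiv v' (nf v') (hnfB v') (hnff v')
    have e2 := hdiv w' (nf v') (hnfB v') ((hnff v').trans hfvw)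
    have e3 := hwtle v' (nf v') (hnfB v') (hnff v')
    have e4 := hwtle w' (nf v') (hnfB v') ((hnff v').trans hfvw)
    have h3 : v 0 + (wt a v' - wt a (nf v')) / m = w 0 + (wt a w' - wt a (nf v')) / m := by
      obtain ⟨p, hp⟩ := e1
      obtain ⟨q, hq⟩ := e2
      rw [hp, hq, Nat.mul_div_cancel_left _ hm, Nat.mul_div_cancel_left _ hm]
      have h4 : (v 0 + p) * m = (w 0 + q) * m := by
        rw [add_mul, add_mul, mul_comm p m, mul_comm q m, ← hp, ← hq]
        omega
      exact Nat.eq_of_mul_eq_mul_right hm h4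
    rw [h3] at h1
    have := Ideal.sub_mem _ h1 h2
    rw [sub_sub_sub_cancel_right, ← eq_emb v, ← eq_emb w] at this
    exact this

theorem up : S_UP := fun e m hm a h1 h2 => upper e m hm a h1 h2

end Pool.Agent.W248.RG
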