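import Mathlib
import Pool.Agent.W248.RG.Glue2

set_option autoImplicit false

namespace Pool.Agent.W248.RG

open MvPolynomial

/-- upper bound in real form -/
lemma upper_real (HC : S_COMB) (n m : ℕ) (hm : 0 < m) (a : Fin (n + 3) → ℕ)
    (ha0 : a 0 = m) (hpos : ∀ i, 0 < a i) :
    ∃ s : Finset (MvPolynomial (Fin (n + 3)) ℚ),
      Ideal.span (s : Set (MvPolynomial (Fin (n + 3)) ℚ)) = tor a ∧
      (s.card : ℝ) ≤ (1 + 2 ^ (n + 2) + (n + 2) * 3 ^ n) * (m : ℝ) ^ ((n : ℝ) / ((n : ℝ) + 1)) := by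
  obtain ⟨B, C, hst, s, hsC, hs⟩ := up (n + 2) m hm a ha0 hpos
  refine ⟨s, hs, ?_⟩
  set X : ℝ := (m : ℝ) ^ ((1 : ℝ) / ((n : ℝ) + 1)) with hX
  have hm1 : (1 : ℝ) ≤ m := by exact_mod_cast hm
  have hn0 : (0 : ℝ) < (n : ℝ) + 1 := by positivity
  have hX1 : 1 ≤ X := Real.one_le_rpow hm1 (by positivity)
  have hXn : X ^ n = (m : ℝ) ^ ((n : ℝ) / ((n : ℝ) + 1)) := by
    rw [hX, ← Real.rpow_natCast, ← Real.rpow_mul (by positivity)]
    congr 1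
    field_simp
  have hXn1 : X ^ (n + 1) = (m : ℝ) := by
    rw [hX, ← Real.rpow_natCast, ← Real.rpow_mul (by positivity)]
    push_cast
    rw [one_div, inv_mul_cancel₀ hn0.ne', Real.rpow_one]
  set h : ℕ := ⌈X⌉₊ with hh
  have hXh : X ≤ h := Nat.le_ceil X
  have hhX : (h : ℝ) < X + 1 := Nat.ceil_lt_add_one (by linarith)
  have hh0 : 0 < h := by
    have : (0 : ℝ) < h := by linarith
    exact_mod_cast this
  have key := HC (n + 2) m h _ B C (by omega) hm hh0 hst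
  have key2 : (C.card : ℝ) * h ≤ h + 2 ^ (n + 2) * m + h * ((n + 2) * (h + 1) ^ n) := by
    have : n + 2 - 2 = n := by omega
    rw [this] at key
    exact_mod_cast key
  have hhpos : (0 : ℝ) < h := by exact_mod_cast hh0
  have hXpos : (0 : ℝ) < X := by linarith
  have h1 : ((h : ℝ) + 1) ^ n ≤ 3 ^ n * X ^ n := by
    rw [← mul_pow]
    exact pow_le_pow_left₀ (by positivity) (by linarith) n
  have h2 : (m : ℝ) ≤ h * X ^ n := by
    rw [← hXn1, pow_succ, mul_comm]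
    exact mul_le_mul_of_nonneg_right hXh (by positivity)
  have h3 : (1 : ℝ) ≤ X ^ n := one_le_pow₀ hX1
  have h4 : (C.card : ℝ) * h ≤ ((1 + 2 ^ (n + 2) + (n + 2) * 3 ^ n) * X ^ n) * h := by
    have e1 : (h : ℝ) ≤ h * X ^ n := le_mul_of_one_le_right hhpos.le h3
    have e2 : (2 : ℝ) ^ (n + 2) * m ≤ 2 ^ (n + 2) * (h * X ^ n) :=
      mul_le_mul_of_nonneg_left h2 (by positivity)
    have e3 : (h : ℝ) * ((n + 2) * (h + 1) ^ n) ≤ h * ((n + 2) * (3 ^ n * X ^ n)) := by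
      gcongr
    calc (C.card : ℝ) * h ≤ _ := key2
      _ ≤ h * X ^ n + 2 ^ (n + 2) * (h * X ^ n) + h * ((n + 2) * (3 ^ n * X ^ n)) := by
          linarith
      _ = _ := by ring
  have h5 := le_of_mul_le_mul_right h4 hhpos
  rw [← hXn]
  refine le_trans ?_ h5
  exact_mod_cast hsC

/-- the choice of the parameter -/
lemma choice (n m : ℕ) (hn : 1 ≤ n) (hm : 2 * (2 * n) ^ (n + 1) ≤ m) :
    ∃ t : ℕ, 2 ≤ t ∧ 2 * (n * t) ^ (n + 1) ≤ m ∧ m < 2 * (n * (t + 1)) ^ (n + 1) := by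
  classical
  have hlarge : ∀ t, 2 * (n * t) ^ (n + 1) ≤ m → t ≤ m := by
    intro t ht
    have h1 : t ≤ n * t := Nat.le_mul_of_pos_left t hn
    have h2 : n * t ≤ (n * t) ^ (n + 1) := Nat.le_self_pow (by omega) _
    omega
  have h2 : 2 * (n * 2) ^ (n + 1) ≤ m := by rw [mul_comm n 2]; exact hm
  refine ⟨Nat.findGreatest (fun t => 2 * (n * t) ^ (n + 1) ≤ m) m, ?_, ?_, ?_⟩
  · exact Nat.le_findGreatest (hlarge 2 h2) h2
  · exact Nat.findGreatest_spec (P := fun t => 2 * (n * t) ^ (n + 1) ≤ m) (hlarge 2 h2) h2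
  · by_contra hcon
    push Not at hcon
    have h3 := Nat.le_findGreatest (P := fun t => 2 * (n * t) ^ (n + 1) ≤ m) (hlarge _ hcon) hcon
    omega

/-- lower bound in real form -/
lemma lower_real (HF : S_FAM) (n m : ℕ) (hn : 1 ≤ n) (hm : 2 * (2 * n) ^ (n + 1) ≤ m) :
    ∃ g : Fin (n + 3) → ℕ, StrictMono g ∧ g 0 = m ∧ Finset.univ.gcd g = 1 ∧
      (∀ i : Fin (n + 3), g i ∉ AddSubmonoid.closure (g '' {j : Fin (n + 3) | j ≠ i})) ∧
      ∀ s : Finset (MvPolynomial (Fin (n + 3)) ℚ),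
        Ideal.span (s : Set (MvPolynomial (Fin (n + 3)) ℚ)) = tor g →
        ((2 * (n : ℝ) ^ (n + 1)) ^ ((n : ℝ) / ((n : ℝ) + 1)))⁻¹ *
          (m : ℝ) ^ ((n : ℝ) / ((n : ℝ) + 1)) ≤ s.card := by
  obtain ⟨t, ht2, ht, ht3⟩ := choice n m hn hm
  have hr2 : 2 ≤ n * t := by nlinarith
  obtain ⟨g, h1, h2, h3, h4, E, hE, hE1, hE2⟩ := HF n (n * t) m hn hr2 ht
  refine ⟨g, h1, h2, h3, h4, ?_⟩
  intro s hs
  have hcard := low _ g E hE1 hE2 s hs
  have hdiv : n * t / n = t := Nat.mul_div_cancel_left t (by omega)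
  rw [hdiv] at hE
  have hEs : (t + 1) ^ n ≤ s.card := hE.trans hcard
  have hn0 : (0 : ℝ) < (n : ℝ) + 1 := by positivity
  have hnpos : (0 : ℝ) < (n : ℝ) := by exact_mod_cast (by omega : 0 < n)
  have hD : (0 : ℝ) < 2 * (n : ℝ) ^ (n + 1) := by positivity
  have hm0 : (0 : ℝ) ≤ m := Nat.cast_nonneg m
  rw [inv_mul_eq_div, ← Real.div_rpow hm0 hD.le]
  have h5 : (m : ℝ) / (2 * (n : ℝ) ^ (n + 1)) ≤ ((t : ℝ) + 1) ^ (n + 1) := by
    rw [div_le_iff₀ hD]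
    have : (m : ℝ) < 2 * ((n : ℝ) * ((t : ℝ) + 1)) ^ (n + 1) := by exact_mod_cast ht3
    rw [mul_pow] at this
    nlinarith
  have h6 : ((m : ℝ) / (2 * (n : ℝ) ^ (n + 1))) ^ ((n : ℝ) / ((n : ℝ) + 1)) ≤
      (((t : ℝ) + 1) ^ (n + 1)) ^ ((n : ℝ) / ((n : ℝ) + 1)) :=
    Real.rpow_le_rpow (by positivity) h5 (by positivity)
  have h7 : (((t : ℝ) + 1) ^ (n + 1)) ^ ((n : ℝ) / ((n : ℝ) + 1)) = ((t : ℝ) + 1) ^ n := by
    rw [← Real.rpow_natCast, ← Real.rpow_mul (by positivity), ← Real.rpow_natCast]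
    congr 1
    push_cast
    field_simp
  rw [h7] at h6
  refine h6.trans ?_
  exact_mod_cast hEs

end Pool.Agent.W248.RG
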