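import Mathlib
import Pool.Agent.W248.RG.Glue2

set_option autoImplicit false

namespace Pool.Agent.W248.RG

open MvPolynomial

/-- the semigroup generated by `m, m + 1, ..., m + e` has embedding dimension `e + 1` and at least
one relation -/
lemma small (n m : ℕ) (hm : n + 2 < m) :
    ∃ g : Fin (n + 3) → ℕ, StrictMono g ∧ g 0 = m ∧ Finset.univ.gcd g = 1 ∧
      (∀ i : Fin (n + 3), g i ∉ AddSubmonoid.closure (g '' {j : Fin (n + 3) | j ≠ i})) ∧
      ∀ s : Finset (MvPolynomial (Fin (n + 3)) ℚ),
        Ideal.span (s : Set (MvPolynomial (Fin (n + 3)) ℚ)) = tor g → 1 ≤ s.card := by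
  refine ⟨fun i => m + (i : ℕ), ?_, by simp, ?_, ?_, ?_⟩
  · intro i j hij
    have : (i : ℕ) < (j : ℕ) := hij
    simp only
    omega
  · have h0 : (Finset.univ : Finset (Fin (n + 3))).gcd (fun i : Fin (n + 3) => m + (i : ℕ)) ∣ m := by
      simpa using Finset.gcd_dvd (f := fun i : Fin (n + 3) => m + (i : ℕ))
        (Finset.mem_univ (0 : Fin (n + 3)))
    have h1 : (Finset.univ : Finset (Fin (n + 3))).gcd (fun i : Fin (n + 3) => m + (i : ℕ)) ∣
        m + 1 := by
      simpa using Finset.gcd_dvd (f := fun i : Fin (n + 3) => m + (i : ℕ))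
        (Finset.mem_univ (1 : Fin (n + 3)))
    have h2 := (Nat.dvd_add_right h0).mp h1
    exact Nat.dvd_one.mp h2
  · intro i hi
    have key : ∀ x ∈ AddSubmonoid.closure
        ((fun i : Fin (n + 3) => m + (i : ℕ)) '' {j : Fin (n + 3) | j ≠ i}),
        x = 0 ∨ (∃ j : Fin (n + 3), j ≠ i ∧ x = m + (j : ℕ)) ∨ 2 * m ≤ x := by
      intro x hx
      induction hx using AddSubmonoid.closure_induction with
      | mem x hx =>
        obtain ⟨j, hj, rfl⟩ := hx
        exact Or.inr (Or.inl ⟨j, hj, rfl⟩)
      | zero => exact Or.inl rfl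
      | add x y _ _ hx hy =>
        rcases hx with rfl | hx
        · rw [zero_add]; exact hy
        rcases hy with rfl | hy
        · rw [add_zero]; exact Or.inr hx
        right; right
        have h1 : m ≤ x := by
          rcases hx with ⟨j, _, rfl⟩ | hx
          · omega
          · omega
        have h2 : m ≤ y := by
          rcases hy with ⟨j, _, rfl⟩ | hy
          · omega
          · omega
        omega
    have hi2 := i.2
    rcases key _ hi with h | ⟨j, hj, h⟩ | h
    · simp only at h
      omega
    · apply hj
      simp only at h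
      exact Fin.ext (by omega)
    · simp only at h
      omega
  · intro s hs
    by_contra hcon
    have hs0 : s = ∅ := by
      rw [← Finset.card_eq_zero]
      omega
    rw [hs0, Finset.coe_empty, Ideal.span_empty] at hs
    have h1 := mem_tor_binom (fun i : Fin (n + 3) => m + (i : ℕ))
      (Finsupp.single 0 (m + 1)) (Finsupp.single 1 m) (by
        unfold deg
        rw [Finset.sum_eq_single (0 : Fin (n + 3)), Finset.sum_eq_single (1 : Fin (n + 3))]
        · simp
          ring
        · intro b _ hb
          rw [Finsupp.single_apply, if_neg (Ne.symm hb), zero_mul]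
        · intro h
          exact absurd (Finset.mem_univ _) h
        · intro b _ hb
          rw [Finsupp.single_apply, if_neg (Ne.symm hb), zero_mul]
        · intro h
          exact absurd (Finset.mem_univ _) h)
    rw [← hs, Ideal.mem_bot, sub_eq_zero] at h1
    have h2 := (monomial_left_inj (one_ne_zero : (1 : ℚ) ≠ 0)).mp h1
    have h3 := DFunLike.congr_fun h2 (0 : Fin (n + 3))
    rw [Finsupp.single_eq_same, Finsupp.single_apply] at h3
    rw [if_neg (by simp)] at h3
    omega

end Pool.Agent.W248.RG
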